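import Mathlib

/-!
# The additivity of `Split(Ω, Λ)` is at most the cofinality of the ultrafilter number

Sets of reals, open covers, large covers, `ω`-covers, `Split(Ω, Λ)` and `add(𝒮)` are as in the
problem; `𝔲` is the ultrafilter number.  We prove `add(𝒮) ≤ cf(𝔲)` (hence `add(𝒮) ≤ 𝔲`).
-/

set_option autoImplicit false

open Set Filter Topology
open scoped Cardinal

namespace Pool.Agent.Results.MP_312f56_gt.AddLeCofU

/-- `𝒰` is an open cover of the set of reals `X` (subspace topology): its members are open in `X`,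
its union is `X`, and `X` itself is not a member. -/
def IsOpenCover (X : Set ℝ) (𝒰 : Set (Set X)) : Prop :=
  (∀ U ∈ 𝒰, IsOpen U) ∧ ⋃₀ 𝒰 = univ ∧ univ ∉ 𝒰

/-- `𝒰 ∈ Λ(X)`: an open cover such that every point of `X` is in infinitely many members. -/
def IsLarge (X : Set ℝ) (𝒰 : Set (Set X)) : Prop :=
  IsOpenCover X 𝒰 ∧ ∀ x : X, {U ∈ 𝒰 | x ∈ U}.Infinite

/-- `𝒰 ∈ Ω(X)`: an open cover such that every finite subset of `X` is contained in a member. -/
def IsOmega (X : Set ℝ) (𝒰 : Set (Set X)) : Prop :=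
  IsOpenCover X 𝒰 ∧ ∀ F : Set X, F.Finite → ∃ U ∈ 𝒰, F ⊆ U

/-- `X` satisfies `Split(Ω, Λ)`. -/
def SplitOmegaLambda (X : Set ℝ) : Prop :=
  ∀ 𝒰 : Set (Set X), IsOmega X 𝒰 → ∃ 𝒱 𝒲 : Set (Set X), 𝒱 ∪ 𝒲 = 𝒰 ∧ Disjoint 𝒱 𝒲 ∧
    (∃ 𝒱' ⊆ 𝒱, IsLarge X 𝒱') ∧ (∃ 𝒲' ⊆ 𝒲, IsLarge X 𝒲')

/-- `add(𝒮)`: the least cardinality of a family of members of `𝒮` whose union is not in `𝒮`. -/
noncomputable def addSplit : Cardinal.{0} :=
  sInf {κ | ∃ F : Set (Set ℝ), (∀ X ∈ F, SplitOmegaLambda X) ∧ ¬ SplitOmegaLambda (⋃₀ F) ∧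
    #F = κ}

/-- `B` is a base of the nonprincipal ultrafilter `p` on `ℕ`. -/
def IsBaseOf (p : Ultrafilter ℕ) (B : Set (Set ℕ)) : Prop :=
  (p : Filter ℕ) ≤ cofinite ∧ (∀ b ∈ B, b ∈ p) ∧ ∀ A ∈ p, ∃ b ∈ B, b ⊆ A

/-- The ultrafilter number `𝔲`: the least cardinality of a base of a nonprincipal ultrafilter
on `ℕ`. -/
noncomputable def ultrafilterNumber : Cardinal.{0} :=
  sInf {κ | ∃ (p : Ultrafilter ℕ) (B : Set (Set ℕ)), IsBaseOf p B ∧ #B = κ}

theorem exists_base : ∃ (p : Ultrafilter ℕ) (B : Set (Set ℕ)), IsBaseOf p B ∧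
    #B = ultrafilterNumber := by
  have hne : {κ : Cardinal.{0} | ∃ (p : Ultrafilter ℕ) (B : Set (Set ℕ)),
      IsBaseOf p B ∧ #B = κ}.Nonempty := by
    refine ⟨_, hyperfilter ℕ, {A | A ∈ hyperfilter ℕ}, ⟨hyperfilter_le_cofinite, fun b hb => hb,
      fun A hA => ⟨A, hA, Subset.rfl⟩⟩, rfl⟩
  exact csInf_mem hne

theorem ultrafilterNumber_le {p : Ultrafilter ℕ} {B : Set (Set ℕ)} (h : IsBaseOf p B) :
    ultrafilterNumber ≤ #B :=
  csInf_le' ⟨p, B, h, rfl⟩

theorem infinite_of_mem {p : Ultrafilter ℕ} (hp : (p : Filter ℕ) ≤ cofinite) {A : Set ℕ}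
    (hA : A ∈ p) : A.Infinite := by
  intro hfin
  have h1 : Aᶜ ∈ p := hp hfin.compl_mem_cofinite
  have h2 := Ultrafilter.compl_notMem_iff.2 hA
  exact h2 h1

/-- No nonprincipal ultrafilter on `ℕ` has a countable base. -/
theorem not_countable_base {p : Ultrafilter ℕ} {B : Set (Set ℕ)} (h : IsBaseOf p B) :
    ¬ B.Countable := by
  intro hB
  obtain ⟨hp, hBp, hbase⟩ := h
  have hBne : B.Nonempty := by
    obtain ⟨b, hb, -⟩ := hbase univ univ_mem
    exact ⟨b, hb⟩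
  obtain ⟨f, hf⟩ := hB.exists_eq_range hBne
  have hinf : ∀ n, (f (n / 2)).Infinite := fun n =>
    infinite_of_mem hp (hBp _ (hf ▸ mem_range_self _))
  obtain ⟨φ, hφ, hφm⟩ := extraction_forall_of_frequently
    (P := fun n k => k ∈ f (n / 2)) (fun n => Nat.frequently_atTop_iff_infinite.2 (hinf n))
  set S : Set ℕ := range fun n => φ (2 * n) with hS
  rcases p.mem_or_compl_mem S with hSp | hSp
  · obtain ⟨b, hb, hbS⟩ := hbase S hSp
    rw [hf] at hb
    obtain ⟨n, rfl⟩ := hb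
    have h1 : φ (2 * n + 1) ∈ f n := by
      have := hφm (2 * n + 1)
      have h2 : (2 * n + 1) / 2 = n := by omega
      simpa [h2] using this
    obtain ⟨m, hm⟩ := hbS h1
    have := hφ.injective hm
    omega
  · obtain ⟨b, hb, hbS⟩ := hbase _ hSp
    rw [hf] at hb
    obtain ⟨n, rfl⟩ := hb
    have h1 : φ (2 * n) ∈ f n := by
      have := hφm (2 * n)
      have h2 : (2 * n) / 2 = n := by omega
      simpa [h2] using this
    exact hbS h1 ⟨n, rfl⟩

theorem aleph0_lt_ultrafilterNumber : ℵ₀ < ultrafilterNumber := by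
  obtain ⟨p, B, hB, hc⟩ := exists_base
  rw [← hc]
  by_contra hlt
  exact not_countable_base hB (Cardinal.le_aleph0_iff_set_countable.1 (not_lt.1 hlt))

/-- A family indexed by `X` of subsets of `ℕ` all whose finite intersections are infinite and with
`|X| < 𝔲` can be split by one set. -/
theorem exists_split {X : Type} (A : X → Set ℕ)
    (hA : ∀ F : Set X, F.Finite → ∀ K : Set ℕ, K.Finite → ∃ n, n ∉ K ∧ ∀ x ∈ F, n ∈ A x)
    (hX : #X < ultrafilterNumber) :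
    ∃ S : Set ℕ, ∀ x, (A x ∩ S).Infinite ∧ (A x \ S).Infinite := by
  by_contra hcon
  push Not at hcon
  -- the filter generated by the `A x` and the cofinite sets
  set G : Set (Set ℕ) := (range A) ∪ {s | sᶜ.Finite} with hG
  have hne : (Filter.generate G).NeBot := by
    rw [Filter.generate_neBot_iff]
    intro t htG htfin
    -- finite subfamily
    have h1 : ∃ F : Set X, F.Finite ∧ t ∩ range A ⊆ A '' F := by
      obtain ⟨F, hFs, hFf, hFi⟩ := Set.exists_subset_image_finite_and.1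
        ⟨t ∩ range A, by rw [image_univ]; exact inter_subset_right, htfin.inter_of_left _, rfl⟩
      exact ⟨F, hFf, hFi.le⟩
    obtain ⟨F, hF, hFt⟩ := h1
    have h2 : (⋃ s ∈ t ∩ {s : Set ℕ | sᶜ.Finite}, sᶜ).Finite :=
      (htfin.inter_of_left _).biUnion fun s hs => hs.2
    obtain ⟨n, hn, hnF⟩ := hA F hF _ h2
    refine ⟨n, ?_⟩
    rw [mem_sInter]
    intro s hs
    rcases htG hs with h | h
    · obtain ⟨x, hx, rfl⟩ := hFt ⟨hs, h⟩
      exact hnF x hx
    · by_contra hns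
      exact hn (mem_biUnion (show s ∈ t ∩ {s : Set ℕ | sᶜ.Finite} from ⟨hs, h⟩) hns)
  obtain ⟨p, hp⟩ := Ultrafilter.exists_le (Filter.generate G)
  have hGp : ∀ s ∈ G, s ∈ p := fun s hs => hp (Filter.mem_generate_of_mem hs)
  have hpc : (p : Filter ℕ) ≤ cofinite := by
    intro s hs
    exact hGp s (Or.inr (by simpa using hs))
  set B : Set (Set ℕ) := range fun q : X × ℕ => A q.1 \ (Iio q.2) with hB
  have hbase : IsBaseOf p B := by
    refine ⟨hpc, ?_, ?_⟩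
    · rintro b ⟨⟨x, k⟩, rfl⟩
      have h1 : A x ∈ p := hGp _ (Or.inl ⟨x, rfl⟩)
      have h2 : (Iio k)ᶜ ∈ p := hpc (finite_Iio k).compl_mem_cofinite
      exact Filter.inter_mem h1 h2
    · intro S hS
      obtain ⟨x, hx⟩ := hcon S
      have h1 : A x ∈ p := hGp _ (Or.inl ⟨x, rfl⟩)
      have h2 : (A x ∩ S).Infinite := infinite_of_mem hpc (Filter.inter_mem h1 hS)
      have h3 : (A x \ S).Finite := by
        have := hx h2
        simpa using this
      obtain ⟨k, hk⟩ := h3.bddAbove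
      refine ⟨_, ⟨⟨x, k + 1⟩, rfl⟩, ?_⟩
      rintro n ⟨hn1, hn2⟩
      by_contra hnS
      have := hk ⟨hn1, hnS⟩
      simp only [mem_Iio, not_lt] at hn2
      omega
  have hle : ultrafilterNumber ≤ #(X × ℕ) :=
    (ultrafilterNumber_le hbase).trans Cardinal.mk_range_le
  have h4 : #(X × ℕ) < ultrafilterNumber := by
    rw [Cardinal.mk_prod, Cardinal.lift_id, Cardinal.lift_id]
    apply Cardinal.mul_lt_of_lt aleph0_lt_ultrafilterNumber.le hX
    rw [Cardinal.mk_nat]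
    exact aleph0_lt_ultrafilterNumber
  exact absurd h4 (not_lt.2 hle)

/-- An `ω`-cover has a countable subfamily which is still an `ω`-cover. -/
theorem exists_countable_omega {X : Set ℝ} {𝒰 : Set (Set X)} (h : IsOmega X 𝒰) :
    ∃ 𝒰₀ ⊆ 𝒰, 𝒰₀.Countable ∧ ∀ F : Set X, F.Finite → ∃ U ∈ 𝒰₀, F ⊆ U := by
  classical
  obtain ⟨⟨hopen, -, -⟩, hom⟩ := h
  set 𝓑 := TopologicalSpace.countableBasis X with h𝓑
  have h𝓑c : 𝓑.Countable := TopologicalSpace.countable_countableBasis X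
  have h𝓑b : TopologicalSpace.IsTopologicalBasis 𝓑 := TopologicalSpace.isBasis_countableBasis X
  set T : Set (Set (Set X)) := {t | t ⊆ 𝓑 ∧ t.Finite ∧ ∃ U ∈ 𝒰, ⋃₀ t ⊆ U} with hT
  have hTc : T.Countable := by
    refine (Set.countable_ofPred_finite_subset h𝓑c).mono ?_
    rintro t ⟨h1, h2, -⟩
    exact ⟨h2, h1⟩
  choose! g hgU hgt using fun (t : Set (Set X)) (ht : t ∈ T) => ht.2.2
  refine ⟨g '' T, ?_, hTc.image g, ?_⟩
  · rintro _ ⟨t, ht, rfl⟩
    exact hgU t ht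
  · intro F hF
    obtain ⟨U, hU, hFU⟩ := hom F hF
    have h1 : ∀ x ∈ F, ∃ b ∈ 𝓑, x ∈ b ∧ b ⊆ U := fun x hx =>
      h𝓑b.exists_subset_of_mem_open (hFU hx) (hopen U hU)
    choose! c hc𝓑 hcx hcU using h1
    have htT : c '' F ∈ T := by
      refine ⟨?_, hF.image c, U, hU, ?_⟩
      · rintro _ ⟨x, hx, rfl⟩
        exact hc𝓑 x hx
      · rintro y ⟨_, ⟨x, hx, rfl⟩, hy⟩
        exact hcU x hx hy
    refine ⟨g (c '' F), mem_image_of_mem g htT, ?_⟩
    intro x hx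
    exact hgt _ htT ⟨c x, mem_image_of_mem c hx, hcx x hx⟩

/-- Every set of reals of cardinality less than `𝔲` satisfies `Split(Ω, Λ)`. -/
theorem split_of_card_lt (X : Set ℝ) (hX : #X < ultrafilterNumber) : SplitOmegaLambda X := by
  intro 𝒰 h𝒰
  obtain ⟨𝒰₀, hsub, hcount, hom⟩ := exists_countable_omega h𝒰
  obtain ⟨⟨hopen, hcov, huniv⟩, -⟩ := h𝒰
  -- `𝒰₀` minus finitely many members is still an `ω`-cover
  have key : ∀ F : Set X, F.Finite → ∀ K : Set (Set X), K.Finite →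
      ∃ U ∈ 𝒰₀, U ∉ K ∧ F ⊆ U := by
    intro F hF K hK
    have h1 : ∀ U ∈ K ∩ 𝒰₀, ∃ x : X, x ∉ U := by
      intro U hU
      by_contra hcon
      push Not at hcon
      exact huniv (hsub ((eq_univ_of_forall hcon) ▸ hU.2))
    have hneX : Nonempty X := by
      obtain ⟨U, hU, -⟩ := hom ∅ finite_empty
      by_contra hcon
      have : U = univ := eq_univ_of_forall fun x => (hcon ⟨x⟩).elim
      exact huniv (hsub (this ▸ hU))
    choose! c hc using h1
    obtain ⟨U, hU, hFU⟩ := hom (F ∪ c '' (K ∩ 𝒰₀)) (hF.union ((hK.inter_of_left _).image c))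
    refine ⟨U, hU, ?_, subset_union_left.trans hFU⟩
    intro hUK
    exact hc U ⟨hUK, hU⟩ (hFU (Or.inr (mem_image_of_mem c ⟨hUK, hU⟩)))
  have hinf : 𝒰₀.Infinite := by
    intro hfin
    obtain ⟨U, hU, hU', -⟩ := key ∅ finite_empty 𝒰₀ hfin
    exact hU' hU
  have : Infinite 𝒰₀ := hinf.to_subtype
  have : Countable 𝒰₀ := hcount.to_subtype
  obtain ⟨e⟩ : Nonempty (ℕ ≃ 𝒰₀) := by
    have := Encodable.ofCountable 𝒰₀
    have := Denumerable.ofEncodableOfInfinite 𝒰₀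
    exact ⟨(Denumerable.eqv 𝒰₀).symm⟩
  obtain ⟨S, hS⟩ := exists_split (fun x : X => {n : ℕ | x ∈ (e n : Set X)})
    (by
      intro F hF K hK
      obtain ⟨U, hU, hUK, hFU⟩ := key F hF ((fun n => (e n : Set X)) '' K) (hK.image _)
      refine ⟨e.symm ⟨U, hU⟩, ?_, ?_⟩
      · intro hmem
        exact hUK ⟨_, hmem, by simp⟩
      · intro x hx
        simpa using hFU hx) hX
  have large : ∀ T : Set ℕ, (∀ x : X, ({n : ℕ | x ∈ (e n : Set X)} ∩ T).Infinite) →
      IsLarge X ((fun n => (e n : Set X)) '' T) := by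
    intro T hT
    have hinj : Function.Injective (fun n => (e n : Set X)) :=
      Subtype.val_injective.comp e.injective
    refine ⟨⟨?_, ?_, ?_⟩, ?_⟩
    · rintro _ ⟨n, -, rfl⟩
      exact hopen _ (hsub (e n).2)
    · refine eq_univ_of_forall fun x => ?_
      obtain ⟨n, hn, hnT⟩ := (hT x).nonempty
      exact ⟨_, ⟨n, hnT, rfl⟩, hn⟩
    · rintro ⟨n, -, hn⟩
      exact huniv (hsub (hn ▸ (e n).2))
    · intro x
      refine ((hT x).image hinj.injOn).mono ?_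
      rintro _ ⟨n, ⟨hn1, hn2⟩, rfl⟩
      exact ⟨⟨n, hn2, rfl⟩, hn1⟩
  refine ⟨(fun n => (e n : Set X)) '' S, 𝒰 \ (fun n => (e n : Set X)) '' S, ?_, ?_, ?_, ?_⟩
  · refine union_sdiff_cancel ?_
    rintro _ ⟨n, -, rfl⟩
    exact hsub (e n).2
  · exact disjoint_sdiff_right
  · exact ⟨_, Subset.rfl, large S fun x => (hS x).1⟩
  · refine ⟨(fun n => (e n : Set X)) '' Sᶜ, ?_, large Sᶜ fun x => ?_⟩
    · rintro _ ⟨n, hn, rfl⟩
      refine ⟨hsub (e n).2, ?_⟩
      rintro ⟨m, hm, hmn⟩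
      have : e m = e n := Subtype.ext hmn
      exact hn (e.injective this ▸ hm)
    · rw [← sdiff_eq]
      exact (hS x).2

/-- There is a set of reals of cardinality at most `𝔲` which fails `Split(Ω, Λ)`. -/
theorem exists_not_split : ∃ X : Set ℝ, #X ≤ ultrafilterNumber ∧ ¬ SplitOmegaLambda X := by
  classical
  obtain ⟨p, B, ⟨hp, hBp, hbase⟩, hBc⟩ := exists_base
  obtain ⟨f, -, hfc, hfi⟩ := (isClosed_univ (X := ℝ)).exists_nat_bool_injection_of_not_countable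
    (by
      intro h
      have := Cardinal.not_countable_real
      exact this h)
  have hemb : IsClosedEmbedding f := hfc.isClosedEmbedding hfi
  -- the code of a set of natural numbers
  set code : Set ℕ → ℝ := fun b => f fun n => decide (n ∈ b) with hcode
  have hcodei : Function.Injective code := by
    intro b c hbc
    have := hfi hbc
    ext n
    simpa using congrFun this n
  have hO : ∀ n : ℕ, ∃ O : Set ℝ, IsOpen O ∧ f ⁻¹' O = {g | g n = true} := by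
    intro n
    have h1 : IsOpen {g : ℕ → Bool | g n = true} := by
      have h0 : Continuous fun g : ℕ → Bool => g n := continuous_apply n
      exact (isOpen_discrete ({true} : Set Bool)).preimage h0
    exact hemb.isInducing.isOpen_iff.1 h1
  choose O hOopen hOf using hO
  have hmem : ∀ n b, code b ∈ O n ↔ n ∈ b := by
    intro n b
    have : (fun m => decide (m ∈ b)) ∈ f ⁻¹' O n ↔ n ∈ b := by
      rw [hOf]; simp
    exact this
  refine ⟨code '' B, ?_, ?_⟩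
  · rw [← hBc]
    exact Cardinal.mk_image_le
  intro hsplit
  set U : ℕ → Set (code '' B : Set ℝ) := fun n => Subtype.val ⁻¹' O n with hU
  have hpt : ∀ x : (code '' B : Set ℝ), ∃ b ∈ B, (x : ℝ) = code b := by
    rintro ⟨_, b, hb, rfl⟩
    exact ⟨b, hb, rfl⟩
  have homega : IsOmega _ (range U) := by
    have hfin : ∀ F : Set (code '' B : Set ℝ), F.Finite → ∃ V ∈ range U, F ⊆ V := by
      intro F hF
      choose c hcB hc using hpt
      have h1 : (⋂ x ∈ F, c x) ∈ p := (Filter.biInter_mem hF).2 fun x _ => hBp _ (hcB x)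
      obtain ⟨n, hn⟩ := (infinite_of_mem hp h1).nonempty
      refine ⟨U n, mem_range_self n, fun x hx => ?_⟩
      show (x : ℝ) ∈ O n
      rw [hc x, hmem]
      exact mem_iInter₂.1 hn x hx
    refine ⟨⟨?_, ?_, ?_⟩, hfin⟩
    · rintro _ ⟨n, rfl⟩
      exact (hOopen n).preimage continuous_subtype_val
    · refine eq_univ_of_forall fun x => ?_
      obtain ⟨V, hV, hxV⟩ := hfin {x} (finite_singleton x)
      exact ⟨V, hV, hxV rfl⟩
    · rintro ⟨n, hn⟩
      have h1 : ({n} : Set ℕ)ᶜ ∈ p := hp (finite_singleton n).compl_mem_cofinite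
      obtain ⟨b, hb, hbn⟩ := hbase _ h1
      have h2 : (⟨code b, b, hb, rfl⟩ : (code '' B : Set ℝ)) ∈ U n := by
        rw [hn]; exact mem_univ _
      have h3 : code b ∈ O n := h2
      rw [hmem] at h3
      exact hbn h3 rfl
  obtain ⟨𝒱, 𝒲, hunion, hdisj, ⟨𝒱', hV', hVl⟩, ⟨𝒲', hW', hWl⟩⟩ := hsplit _ homega
  set S : Set ℕ := {n | U n ∈ 𝒱} with hS
  have hne1 : ∀ b ∈ B, (b ∩ S).Nonempty := by
    intro b hb
    obtain ⟨V, hV, hbV⟩ := (hVl.2 ⟨code b, b, hb, rfl⟩).nonempty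
    have hV2 : V ∈ range U := hunion ▸ Or.inl (hV' hV)
    obtain ⟨n, rfl⟩ := hV2
    exact ⟨n, (hmem n b).1 hbV, hV' hV⟩
  have hne2 : ∀ b ∈ B, (b ∩ Sᶜ).Nonempty := by
    intro b hb
    obtain ⟨V, hV, hbV⟩ := (hWl.2 ⟨code b, b, hb, rfl⟩).nonempty
    have hV2 : V ∈ range U := hunion ▸ Or.inr (hW' hV)
    obtain ⟨n, rfl⟩ := hV2
    exact ⟨n, (hmem n b).1 hbV, fun h => (disjoint_left.1 hdisj h) (hW' hV)⟩
  rcases p.mem_or_compl_mem S with h | h
  · obtain ⟨b, hb, hbS⟩ := hbase _ h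
    obtain ⟨n, hn1, hn2⟩ := hne2 b hb
    exact hn2 (hbS hn1)
  · obtain ⟨b, hb, hbS⟩ := hbase _ h
    obtain ⟨n, hn1, hn2⟩ := hne1 b hb
    exact hbS hn1 hn2

/-- A set of cardinality at most `κ` infinite is the union of `cf κ` subsets of size `< κ`. -/
theorem exists_decomposition (X : Set ℝ) (κ : Cardinal.{0}) (hκ : ℵ₀ ≤ κ) (hX : #X ≤ κ) :
    ∃ F : Set (Set ℝ), (∀ Y ∈ F, #Y < κ) ∧ ⋃₀ F = X ∧ #F ≤ κ.ord.cof := by
  obtain ⟨s, hs, hsc⟩ := Order.exists_cof_eq (α := κ.ord.ToType)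
  rw [Ordinal.cof_toType] at hsc
  obtain ⟨g⟩ : Nonempty (X ↪ κ.ord.ToType) := by
    have : #X ≤ #κ.ord.ToType := by rw [Cardinal.mk_toType, Cardinal.card_ord]; exact hX
    exact this
  refine ⟨(fun t => {x : ℝ | ∃ h : x ∈ X, g ⟨x, h⟩ ≤ t}) '' s, ?_, ?_, ?_⟩
  · rintro _ ⟨t, -, rfl⟩
    have h1 : #{x : ℝ | ∃ h : x ∈ X, g ⟨x, h⟩ ≤ t} ≤ #(Iic t) := by
      refine Cardinal.mk_le_of_injective (f := fun x => ⟨g ⟨x.1, x.2.1⟩, x.2.2⟩) ?_
      intro x y hxy
      have h2 := g.injective (congrArg Subtype.val hxy)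
      exact Subtype.ext (by simpa using h2)
    have h2 : #(Iic t) < κ := by
      have h3 : Iic t = insert t (Iio t) := by
        ext x; simp [le_iff_eq_or_lt]
      have h4 : #(Iio t) < κ := by
        have := Cardinal.mk_Iio_lt (α := κ.ord.ToType) t (by simp)
        simpa using this
      rw [h3]
      refine (Cardinal.mk_insert_le).trans_lt ?_
      exact Cardinal.add_lt_of_lt hκ h4 (Cardinal.one_lt_aleph0.trans_le hκ)
    exact h1.trans_lt h2
  · ext x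
    constructor
    · rintro ⟨_, ⟨t, -, rfl⟩, hx, -⟩
      exact hx
    · intro hx
      obtain ⟨t, ht, hxt⟩ := hs (g ⟨x, hx⟩)
      exact ⟨_, ⟨t, ht, rfl⟩, hx, hxt⟩
  · rw [← hsc]
    exact Cardinal.mk_image_le

/-- **`add(𝒮) ≤ cf(𝔲)`.**  There is a family of at most `cf(𝔲)` sets of reals satisfying
`Split(Ω, Λ)` whose union does not satisfy it; hence `add(𝒮) ≤ cf(𝔲)`. -/
theorem result :
    (∃ F : Set (Set ℝ), (∀ X ∈ F, SplitOmegaLambda X) ∧ ¬ SplitOmegaLambda (⋃₀ F) ∧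
      #F ≤ ultrafilterNumber.ord.cof) ∧
    addSplit ≤ ultrafilterNumber.ord.cof := by
  obtain ⟨X, hX, hXn⟩ := exists_not_split
  obtain ⟨F, hF, hFX, hFc⟩ := exists_decomposition X _ aleph0_lt_ultrafilterNumber.le hX
  have h1 : ∀ Y ∈ F, SplitOmegaLambda Y := fun Y hY => split_of_card_lt Y (hF Y hY)
  refine ⟨⟨F, h1, hFX ▸ hXn, hFc⟩, ?_⟩
  exact (csInf_le' ⟨F, h1, hFX ▸ hXn, rfl⟩ : addSplit ≤ #F).trans hFc

end Pool.Agent.Results.MP_312f56_gt.AddLeCofU
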