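import Pool.Agent.Helper403_Split.Prop

/-!
# A lower bound for the additivity of `Split(Ω, Λ)`

`mProper` is the least number of dense subsets of a proper poset of size at most the continuum
not met by one filter, `mSplit` the same number for the posets `ℚ_U`, and `addSplit` is `add(𝒮)`.
We prove `ℵ₁ ≤ mProper ≤ mSplit ≤ add(𝒮)`.
-/

set_option autoImplicit false

open Set Filter Topology
open scoped Cardinal
open Pool.Agent.Helper403.Split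

namespace Pool.Agent.Results.MP_312f56_gt.LowerBound

/-- Rasiowa–Sikorski. -/
theorem exists_filter {P : Type} [Preorder P] [Nonempty P] (𝒟 : Set (Set P)) (hc : 𝒟.Countable)
    (hD : ∀ D ∈ 𝒟, IsDenseSet D) : ∃ G : Set P, IsFilterSet G ∧ ∀ D ∈ 𝒟, (G ∩ D).Nonempty := by
  obtain ⟨p⟩ := ‹Nonempty P›
  rcases 𝒟.eq_empty_or_nonempty with rfl | hne
  · refine ⟨{x | p ≤ x}, ⟨⟨p, le_rfl⟩, fun a ha q hq => ?_, fun a ha b hb => ⟨p, ?_, ha, hb⟩⟩,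
      by simp⟩
    · exact le_trans ha hq
    · exact le_refl p
  obtain ⟨D, rfl⟩ := hc.exists_eq_range hne
  choose nxt hnxt1 hnxt2 using fun (n : ℕ) (q : P) => hD (D n) (mem_range_self n) q
  set s : ℕ → P := fun n => Nat.rec p (fun n q => nxt n q) n with hs
  have hs1 : ∀ n, s (n + 1) = nxt n (s n) := fun n => rfl
  have hanti : Antitone s := antitone_nat_of_succ_le fun n => by
    rw [hs1]; exact hnxt2 n (s n)
  refine ⟨{x | ∃ n, s n ≤ x}, ⟨⟨p, 0, le_rfl⟩, ?_, ?_⟩, ?_⟩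
  · rintro a ⟨n, hn⟩ q hq
    exact ⟨n, hn.trans hq⟩
  · rintro a ⟨n, hn⟩ b ⟨m, hm⟩
    exact ⟨s (max n m), ⟨_, le_rfl⟩, (hanti (le_max_left n m)).trans hn,
      (hanti (le_max_right n m)).trans hm⟩
  · rintro _ ⟨n, rfl⟩
    exact ⟨s (n + 1), ⟨n + 1, le_rfl⟩, by rw [hs1]; exact hnxt1 n (s n)⟩

theorem mk_QU_le (U : Ultrafilter ℕ) : #(QU U) ≤ 𝔠 := by
  have h1 : #(QU U) ≤ #(ℕ → ℕ) := Cardinal.mk_subtype_le _
  refine h1.trans ?_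
  simp

theorem nonempty_QU {U : Ultrafilter ℕ} (hU : (U : Filter ℕ) ≤ cofinite) : Nonempty (QU U) := by
  refine ⟨⟨fun k => k, fun n hn => ?_⟩⟩
  exact infinite_of_mem hU hn (by simp)

/-- `ℵ₁ ≤ mProper ≤ mSplit ≤ add(𝒮)`. -/
theorem result : ℵ₁ ≤ mProper ∧ mProper ≤ mSplit ∧ mSplit ≤ addSplit := by
  -- the three defining sets
  set A := {κ : Cardinal.{0} | ∃ F : Set (Set ℝ), (∀ X ∈ F, SplitOmegaLambda X) ∧
    ¬ SplitOmegaLambda (⋃₀ F) ∧ #F = κ} with hA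
  set B := {κ : Cardinal.{0} | ∃ (U : Ultrafilter ℕ) (𝒟 : Set (Set (QU U))),
    (U : Filter ℕ) ≤ cofinite ∧ (∀ D ∈ 𝒟, IsDenseSet D) ∧
    (¬ ∃ G : Set (QU U), IsFilterSet G ∧ ∀ D ∈ 𝒟, (G ∩ D).Nonempty) ∧ #𝒟 = κ} with hB
  set C := {κ : Cardinal.{0} | ∃ (P : Type) (_ : Preorder P) (𝒟 : Set (Set P)), Nonempty P ∧
    #P ≤ 𝔠 ∧ IsProperForcing P ∧ (∀ D ∈ 𝒟, IsDenseSet D) ∧
    (¬ ∃ G : Set P, IsFilterSet G ∧ ∀ D ∈ 𝒟, (G ∩ D).Nonempty) ∧ #𝒟 = κ} with hC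
  have hAne : A.Nonempty := by
    obtain ⟨F, hF, hFn⟩ := exists_family
    exact ⟨_, F, hF, hFn, rfl⟩
  have hAB : ∀ κ ∈ A, ∃ κ' ∈ B, κ' ≤ κ := by
    rintro κ ⟨F, hF, hFn, rfl⟩
    obtain ⟨U, 𝒟, hU, hD, hno, hle⟩ := exists_dense_family F hF hFn
    exact ⟨#𝒟, ⟨U, 𝒟, hU, hD, hno, rfl⟩, hle⟩
  have hBC : B ⊆ C := by
    rintro κ ⟨U, 𝒟, hU, hD, hno, rfl⟩
    exact ⟨QU U, inferInstance, 𝒟, nonempty_QU hU, mk_QU_le U, proper_QU U, hD, hno, rfl⟩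
  have hBne : B.Nonempty := by
    obtain ⟨κ, hκ⟩ := hAne
    obtain ⟨κ', hκ', -⟩ := hAB κ hκ
    exact ⟨κ', hκ'⟩
  refine ⟨?_, csInf_le_csInf' hBne hBC, ?_⟩
  · refine le_csInf (hBne.mono hBC) ?_
    rintro κ ⟨P, _, 𝒟, _, -, -, hD, hno, rfl⟩
    by_contra hlt
    rw [not_le, ← Cardinal.countable_iff_lt_aleph_one] at hlt
    exact hno (exists_filter 𝒟 hlt hD)
  · refine le_csInf hAne ?_
    intro κ hκ
    obtain ⟨κ', hκ', hle⟩ := hAB κ hκ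
    exact (csInf_le' hκ').trans hle

end Pool.Agent.Results.MP_312f56_gt.LowerBound
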